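import Pool.Agent.R354.SF.Core

set_option autoImplicit false

namespace Pool.Agent.R354.SF

open Finset
open scoped Pointwise

variable {p k : ℕ} [hp : Fact p.Prime]

lemma mu_le (hk : p = 3 * k + 2) (A : Finset (ZMod p)) : mu A ≤ k + 1 := by
  classical
  unfold mu
  apply Finset.sup_le
  intro S hS
  exact sumfree_card hk (mem_filter.1 hS).2

lemma mu_eq_iff (hk : p = 3 * k + 2) (A : Finset (ZMod p)) :
    mu A = k + 1 ↔ ∃ S ⊆ A, SumFree S ∧ S.card = k + 1 := by
  classical
  constructor
  · intro h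
    have hne : (A.powerset.filter (fun S => SumFree S)).Nonempty := by
      refine ⟨∅, mem_filter.2 ⟨empty_mem_powerset _, ?_⟩⟩
      intro x hx
      simp at hx
    obtain ⟨S, hS, hS2⟩ := Finset.exists_mem_eq_sup _ hne card
    refine ⟨S, mem_powerset.1 (mem_filter.1 hS).1, (mem_filter.1 hS).2, ?_⟩
    rw [← hS2, ← h]
    unfold mu
    congr
  · rintro ⟨S, hSA, hS, hc⟩
    apply le_antisymm (mu_le hk A)
    rw [← hc]
    unfold mu
    exact Finset.le_sup (f := card) (mem_filter.2 ⟨mem_powerset.2 hSA, hS⟩)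

lemma mu_univ (hk : p = 3 * k + 2) : mu (univ : Finset (ZMod p)) = k + 1 := by
  rw [mu_eq_iff hk]
  obtain ⟨h1, h2⟩ := sumfree_dilate hk (g := (1 : ZMod p)) one_ne_zero
  exact ⟨_, subset_univ _, h1, h2⟩

lemma muMin_eq_iff (hk : p = 3 * k + 2) (hk1 : 1 ≤ k) {m : ℕ} (hm : m ≤ p) :
    muMin p m = mu (univ : Finset (ZMod p)) ↔
      ∀ A : Finset (ZMod p), A.card = m → ¬ Hit Aᶜ := by
  rw [mu_univ hk]
  have hne : {t | ∃ A : Finset (ZMod p), A.card = m ∧ mu A = t}.Nonempty := by
    have : m ≤ (univ : Finset (ZMod p)).card := by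
      rw [card_univ, ZMod.card]
      exact hm
    obtain ⟨A, _, hA⟩ := exists_subset_card_eq this
    exact ⟨mu A, A, hA, rfl⟩
  constructor
  · intro h A hA
    rw [← contains_iff hk hk1, ← mu_eq_iff hk]
    apply le_antisymm (mu_le hk A)
    rw [← h]
    exact Nat.sInf_le ⟨A, hA, rfl⟩
  · intro h
    obtain ⟨A, hA, hA2⟩ := Nat.sInf_mem hne
    unfold muMin
    rw [← hA2, mu_eq_iff hk, contains_iff hk hk1]
    exact h A hA

lemma hit_univ (hk : p = 3 * k + 2) : Hit (univ : Finset (ZMod p)) := by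
  intro g hg
  have h := (sumfree_dilate hk hg).2
  have : (univ.filter (fun x : ZMod p => Mid (g * x))).Nonempty := by
    rw [← card_pos]
    omega
  obtain ⟨x, hx⟩ := this
  exact ⟨x, mem_univ _, (mem_filter.1 hx).2⟩

lemma T_mem (hk : p = 3 * k + 2) (hk1 : 1 ≤ k) :
    1 ≤ T p ∧ T p ≤ p ∧ ∀ A : Finset (ZMod p), A.card = T p → ¬ Hit Aᶜ := by
  have hne : {m | 1 ≤ m ∧ m ≤ p ∧ muMin p m = mu (univ : Finset (ZMod p))}.Nonempty := by
    refine ⟨p, by omega, le_rfl, ?_⟩
    rw [muMin_eq_iff hk hk1 le_rfl]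
    intro A hA hH
    have : A = univ := by
      apply eq_univ_of_card
      rw [hA, ZMod.card]
    rw [this] at hH
    obtain ⟨b, hb, _⟩ := hH 1 one_ne_zero
    simp at hb
  have h := Nat.sInf_mem hne
  have hT : sInf {m | 1 ≤ m ∧ m ≤ p ∧ muMin p m = mu (univ : Finset (ZMod p))} = T p := rfl
  rw [hT] at h
  obtain ⟨h1, h2, h3⟩ := h
  exact ⟨h1, h2, (muMin_eq_iff hk hk1 h2).1 h3⟩

/-- the reduction to hitting sets, first half -/
lemma T_ge (hk : p = 3 * k + 2) (hk1 : 1 ≤ k) {B : Finset (ZMod p)} (hB : Hit B) :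
    p + 1 ≤ T p + B.card := by
  obtain ⟨h1, h2, h3⟩ := T_mem hk hk1
  by_contra hcon
  have h4 : T p ≤ (Bᶜ).card := by
    rw [card_compl, ZMod.card]
    omega
  obtain ⟨A, hA, hAc⟩ := exists_subset_card_eq h4
  apply h3 A hAc
  intro g hg
  obtain ⟨b, hb, hb2⟩ := hB g hg
  refine ⟨b, ?_, hb2⟩
  rw [mem_compl]
  intro hbA
  exact (mem_compl.1 (hA hbA)) hb

/-- the reduction to hitting sets, second half -/
lemma T_attained (hk : p = 3 * k + 2) (hk1 : 1 ≤ k) :
    ∃ B : Finset (ZMod p), Hit B ∧ T p + B.card = p + 1 := by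
  obtain ⟨h1, h2, h3⟩ := T_mem hk hk1
  by_cases h : T p = 1
  · refine ⟨univ, hit_univ hk, ?_⟩
    rw [card_univ, ZMod.card, h]
    omega
  · have h4 : T p - 1 < T p := by omega
    have h5 := Nat.notMem_of_lt_sInf h4
    have h6 : ¬ (∀ A : Finset (ZMod p), A.card = T p - 1 → ¬ Hit Aᶜ) := by
      intro h7
      apply h5
      refine ⟨by omega, by omega, ?_⟩
      rw [muMin_eq_iff hk hk1 (by omega)]
      exact h7
    push Not at h6
    obtain ⟨A, hA, hA2⟩ := h6
    refine ⟨Aᶜ, hA2, ?_⟩
    rw [card_compl, ZMod.card, hA]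
    omega

lemma not_mid_of_sub (hk : p = 3 * k + 2) {i j : ℕ} (hi : i < k + 1) (hj : j < k + 1) :
    ¬ Mid ((i : ZMod p) - (j : ZMod p)) := by
  intro h
  unfold Mid at h
  have h1 := vma_le ((i : ZMod p) - (j : ZMod p))
  have hc : (((i : ℤ) - (j : ℤ) : ℤ) : ZMod p) =
      ((((i : ZMod p) - (j : ZMod p)).valMinAbs : ℤ) : ZMod p) := by
    simp
  obtain ⟨e, he⟩ := dvd_of_eq hc
  set c := ((i : ZMod p) - (j : ZMod p)).valMinAbs
  have hpp : (p : ℤ) = 3 * k + 2 := by exact_mod_cast hk
  have he1 : e < 1 := by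
    by_contra hcon
    push Not at hcon
    have : (p : ℤ) * 1 ≤ p * e := by nlinarith
    omega
  have he2 : -1 < e := by
    by_contra hcon
    push Not at hcon
    have : (p : ℤ) * e ≤ p * (-1) := by nlinarith
    omega
  have he3 : e = 0 := by omega
  subst he3
  omega

/-- the packing bound -/
lemma packing (hk : p = 3 * k + 2) (B : Finset (ZMod p)) :
    ∀ D : Finset (ZMod p), (∀ d ∈ D, ∀ d' ∈ D, d ≠ d' → ∃ b ∈ B, Mid ((d - d') * b)) →
      2 * D.card ≤ 3 ^ B.card + 1 := by
  induction B using Finset.induction_on with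
  | empty =>
    intro D hD
    have : D.card ≤ 1 := by
      rw [card_le_one]
      intro a ha b hb
      by_contra hne
      obtain ⟨x, hx, _⟩ := hD a ha b hb hne
      simp at hx
    simp
    omega
  | insert b B hb ih =>
    intro D hD
    have h1 : ∀ c : ZMod p,
        2 * (D.filter (fun d => d * b ∈ Pool.Agent.TH141.PC.I c (k + 1))).card ≤
          3 ^ B.card + 1 := by
      intro c
      apply ih
      intro d hd d' hd' hne
      obtain ⟨hd1, hd2⟩ := mem_filter.1 hd
      obtain ⟨hd'1, hd'2⟩ := mem_filter.1 hd'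
      obtain ⟨x, hx, hx2⟩ := hD d hd1 d' hd'1 hne
      rcases mem_insert.1 hx with rfl | hx
      · exfalso
        obtain ⟨i, hi, hi2⟩ := Pool.Agent.TH141.PC.mem_I.1 hd2
        obtain ⟨j, hj, hj2⟩ := Pool.Agent.TH141.PC.mem_I.1 hd'2
        rw [sub_mul, ← hi2, ← hj2] at hx2
        have : c + (i : ZMod p) - (c + (j : ZMod p)) = (i : ZMod p) - (j : ZMod p) := by ring
        rw [this] at hx2
        exact not_mid_of_sub hk hi hj hx2
      · exact ⟨x, hx, hx2⟩
    have h2 : ∑ c : ZMod p,
        (D.filter (fun d => d * b ∈ Pool.Agent.TH141.PC.I c (k + 1))).card =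
          D.card * (k + 1) := by
      have h3 : ∀ c : ZMod p,
          (D.filter (fun d => d * b ∈ Pool.Agent.TH141.PC.I c (k + 1))).card =
          ∑ d ∈ D, if d * b ∈ Pool.Agent.TH141.PC.I c (k + 1) then 1 else 0 := by
        intro c
        rw [card_filter]
      simp_rw [h3]
      rw [sum_comm]
      have h4 : ∀ d ∈ D, (∑ c : ZMod p,
          if d * b ∈ Pool.Agent.TH141.PC.I c (k + 1) then 1 else 0) = k + 1 := by
        intro d _
        rw [← card_filter]
        have : (univ.filter (fun c : ZMod p => d * b ∈ Pool.Agent.TH141.PC.I c (k + 1))) =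
            Pool.Agent.TH141.PC.I (d * b - (k : ZMod p)) (k + 1) := by
          ext c
          rw [mem_filter, Pool.Agent.TH141.PC.mem_I, Pool.Agent.TH141.PC.mem_I]
          constructor
          · rintro ⟨_, i, hi, hi2⟩
            refine ⟨k - i, by omega, ?_⟩
            rw [← hi2, Nat.cast_sub (by omega)]
            ring
          · rintro ⟨i, hi, hi2⟩
            refine ⟨mem_univ _, k - i, by omega, ?_⟩
            rw [← hi2, Nat.cast_sub (by omega)]
            ring
        rw [this, Pool.Agent.TH141.PC.card_I (by omega)]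
      rw [sum_congr rfl h4, sum_const, smul_eq_mul]
    have h5 : 2 * (D.card * (k + 1)) ≤ p * (3 ^ B.card + 1) := by
      rw [← h2, mul_sum]
      calc ∑ c : ZMod p, 2 * (D.filter (fun d => d * b ∈ Pool.Agent.TH141.PC.I c (k + 1))).card
          ≤ ∑ _c : ZMod p, (3 ^ B.card + 1) := sum_le_sum (fun c _ => h1 c)
        _ = p * (3 ^ B.card + 1) := by rw [sum_const, card_univ, ZMod.card, smul_eq_mul]
    rw [card_insert_of_notMem hb, pow_succ]
    have h6 : Odd (3 ^ B.card) := Odd.pow (by decide)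
    obtain ⟨u, hu⟩ := h6
    rw [hu] at h5 ⊢
    by_contra hcon
    have h7 : 3 * (u + 1) ≤ D.card := by omega
    have h8 : p * (2 * u + 1 + 1) = (3 * k + 2) * (2 * u + 1 + 1) :=
      congrArg (· * (2 * u + 1 + 1)) hk
    rw [h8] at h5
    nlinarith

lemma hit_lower (hk : p = 3 * k + 2) {B : Finset (ZMod p)} (hB : Hit B) :
    2 * p ≤ 3 ^ B.card + 1 := by
  have := packing hk B univ (by
    intro d _ d' _ hne
    exact hB (d - d') (sub_ne_zero.2 hne))
  rwa [card_univ, ZMod.card] at this

lemma natAbs_pos_of_ne {g : ZMod p} (hg : g ≠ 0) : 1 ≤ g.valMinAbs.natAbs := by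
  have : g.valMinAbs ≠ 0 := by
    intro h
    apply hg
    rw [← ZMod.coe_valMinAbs g, h]
    simp
  omega

/-- powers of two form a hitting set -/
lemma hit_two (hk : p = 3 * k + 2) (t : ℕ) (ht : k + 1 ≤ 2 ^ t) :
    Hit ((range (t + 1)).image (fun i : ℕ => (2 : ZMod p) ^ i)) := by
  intro g hg
  by_contra hcon
  push Not at hcon
  have hn : ∀ i, i ≤ t → ¬ Mid (g * (2 : ZMod p) ^ i) := by
    intro i hi
    exact hcon _ (mem_image.2 ⟨i, mem_range.2 (by omega), rfl⟩)
  have key : ∀ i, i ≤ t → (g * (2 : ZMod p) ^ i).valMinAbs = 2 ^ i * g.valMinAbs := by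
    intro i
    induction i with
    | zero => intro _; simp
    | succ i ih =>
      intro hi
      have h1 := ih (by omega)
      have h2 := hn i (by omega)
      have h3 := hn (i + 1) hi
      unfold Mid at h2 h3
      have hc : ((2 * (g * (2 : ZMod p) ^ i).valMinAbs : ℤ) : ZMod p) =
          (((g * (2 : ZMod p) ^ (i + 1)).valMinAbs : ℤ) : ZMod p) := by
        push_cast
        ring
      obtain ⟨e, he⟩ := dvd_of_eq hc
      have h6 : (2 : ℤ) ^ (i + 1) * g.valMinAbs = 2 * (g * (2 : ZMod p) ^ i).valMinAbs := by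
        rw [h1]
        ring
      rw [h6]
      set a := (g * (2 : ZMod p) ^ i).valMinAbs
      set c := (g * (2 : ZMod p) ^ (i + 1)).valMinAbs
      have hpp : (p : ℤ) = 3 * k + 2 := by exact_mod_cast hk
      have he1 : e < 1 := by
        by_contra hcon
        push Not at hcon
        have : (p : ℤ) * 1 ≤ p * e := by nlinarith
        omega
      have he2 : -1 < e := by
        by_contra hcon
        push Not at hcon
        have : (p : ℤ) * e ≤ p * (-1) := by nlinarith
        omega
      have he3 : e = 0 := by omega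
      rw [he3] at he
      omega
  have h1 := key t le_rfl
  have h2 := hn t le_rfl
  unfold Mid at h2
  rw [h1, Int.natAbs_mul, Int.natAbs_pow] at h2
  have h3 := natAbs_pos_of_ne hg
  have h4 : (2 : ℤ).natAbs = 2 := rfl
  rw [h4] at h2
  have h5 : k + 1 ≤ 2 ^ t * g.valMinAbs.natAbs := by nlinarith
  omega

/-- powers of three form a hitting set when `2 p = 3 ^ n + 1` -/
lemma hit_three (hk : p = 3 * k + 2) (hk1 : 1 ≤ k) (n : ℕ) (hn3 : 2 * p = 3 ^ n + 1) :
    Hit ((range n).image (fun i : ℕ => (3 : ZMod p) ^ i)) := by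
  intro g hg
  by_contra hcon
  push Not at hcon
  have hodd : p % 2 = 1 := by
    rcases hp.out.eq_two_or_odd with h | h
    · omega
    · exact h
  have hn1 : 1 ≤ n := by
    by_contra h
    have : n = 0 := by omega
    subst this
    simp at hn3
    omega
  have hpow : (3 : ZMod p) ^ n = -1 := by
    have : ((2 * p : ℕ) : ZMod p) = ((3 ^ n + 1 : ℕ) : ZMod p) := by rw [hn3]
    push_cast at this
    rw [ZMod.natCast_self, mul_zero] at this
    exact eq_neg_of_add_eq_zero_left this.symm
  have hn : ∀ i, i ≤ n → ¬ Mid (g * (3 : ZMod p) ^ i) := by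
    intro i hi
    rcases Nat.lt_or_ge i n with h | h
    · exact hcon _ (mem_image.2 ⟨i, mem_range.2 h, rfl⟩)
    · have : i = n := by omega
      subst this
      rw [hpow, mul_neg, mul_one, mid_neg]
      have := hcon _ (mem_image.2 ⟨0, mem_range.2 (by omega), rfl⟩)
      simpa using this
  have hpp : (p : ℤ) = 3 * k + 2 := by exact_mod_cast hk
  have hne : ∀ i, g * (3 : ZMod p) ^ i ≠ 0 := by
    intro i
    apply mul_ne_zero hg
    apply pow_ne_zero
    intro h3
    have : ((3 : ℕ) : ZMod p) = 0 := by exact_mod_cast h3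
    rw [ZMod.natCast_eq_zero_iff] at this
    have := Nat.le_of_dvd (by norm_num) this
    omega
  have key : ∀ i, i ≤ n →
      ((g * (3 : ZMod p) ^ i).valMinAbs +
        (if (g * (3 : ZMod p) ^ i).valMinAbs < 0 then 1 else 0)) % 2 =
      (g.valMinAbs + (if g.valMinAbs < 0 then 1 else 0)) % 2 := by
    intro i
    induction i with
    | zero => intro _; simp
    | succ i ih =>
      intro hi
      have h1 := ih (by omega)
      have h2 := hn i (by omega)
      have h3 := hn (i + 1) hi
      have h4 := natAbs_pos_of_ne (hne i)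
      have h5 := natAbs_pos_of_ne (hne (i + 1))
      unfold Mid at h2 h3
      have hc : ((3 * (g * (3 : ZMod p) ^ i).valMinAbs : ℤ) : ZMod p) =
          (((g * (3 : ZMod p) ^ (i + 1)).valMinAbs : ℤ) : ZMod p) := by
        push_cast
        ring
      obtain ⟨e, he⟩ := dvd_of_eq hc
      rw [← h1]
      set a := (g * (3 : ZMod p) ^ i).valMinAbs
      set c := (g * (3 : ZMod p) ^ (i + 1)).valMinAbs
      have he1 : e < 2 := by
        by_contra hcon
        push Not at hcon
        have : (p : ℤ) * 2 ≤ p * e := by nlinarith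
        omega
      have he2 : -2 < e := by
        by_contra hcon
        push Not at hcon
        have : (p : ℤ) * e ≤ p * (-2) := by nlinarith
        omega
      have he3 : e = -1 ∨ e = 0 ∨ e = 1 := by omega
      rcases he3 with rfl | rfl | rfl
      · have ha : a < 0 := by omega
        have hc' : ¬ c < 0 := by omega
        rw [if_pos ha, if_neg hc']
        omega
      · have hca : c = 3 * a := by omega
        by_cases ha : a < 0
        · rw [if_pos ha, if_pos (by omega)]
          omega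
        · rw [if_neg ha, if_neg (by omega)]
          omega
      · have ha : ¬ a < 0 := by omega
        have hc' : c < 0 := by omega
        rw [if_neg ha, if_pos hc']
        omega
  have h1 := key n le_rfl
  have h2 := hn n le_rfl
  have h3 := hn 0 (by omega)
  rw [pow_zero, mul_one] at h3
  have h4 := natAbs_pos_of_ne hg
  unfold Mid at h2 h3
  have hc : ((-g.valMinAbs : ℤ) : ZMod p) =
      (((g * (3 : ZMod p) ^ n).valMinAbs : ℤ) : ZMod p) := by
    rw [hpow]
    simp
  obtain ⟨e, he⟩ := dvd_of_eq hc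
  set a := g.valMinAbs
  set c := (g * (3 : ZMod p) ^ n).valMinAbs
  have he1 : e < 1 := by
    by_contra hcon
    push Not at hcon
    have : (p : ℤ) * 1 ≤ p * e := by nlinarith
    omega
  have he2 : -1 < e := by
    by_contra hcon
    push Not at hcon
    have : (p : ℤ) * e ≤ p * (-1) := by nlinarith
    omega
  have he3 : e = 0 := by omega
  rw [he3] at he
  by_cases ha : a < 0
  · rw [if_pos ha, if_neg (by omega)] at h1
    omega
  · rw [if_neg ha, if_pos (by omega)] at h1
    omega

end Pool.Agent.R354.SF
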