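import Mathlib
import Pool.Agent.TH141.PC.Vosper

set_option autoImplicit false

namespace Pool.Agent.R354.SF

open Finset
open scoped Pointwise

/-- no `x, y, z ∈ S`, not necessarily distinct, with `x + y = z` -/
def SumFree {p : ℕ} (S : Finset (ZMod p)) : Prop := ∀ x ∈ S, ∀ y ∈ S, x + y ∉ S

open Classical in
/-- the largest size of a sum-free subset of `A` -/
noncomputable def mu {p : ℕ} (A : Finset (ZMod p)) : ℕ :=
  (A.powerset.filter (fun S => SumFree S)).sup card

/-- the minimum of `mu A` over all `m`-element subsets `A` of `ZMod p` -/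
noncomputable def muMin (p m : ℕ) : ℕ :=
  sInf {t | ∃ A : Finset (ZMod p), A.card = m ∧ mu A = t}

/-- the smallest `m` with `1 ≤ m ≤ p` and `muMin p m = mu (ZMod p)` -/
noncomputable def T (p : ℕ) [NeZero p] : ℕ :=
  sInf {m | 1 ≤ m ∧ m ≤ p ∧ muMin p m = mu (univ : Finset (ZMod p))}

/-- the middle third -/
def Mid {p : ℕ} (x : ZMod p) : Prop := p < 3 * x.valMinAbs.natAbs

instance {p : ℕ} (x : ZMod p) : Decidable (Mid x) := by unfold Mid; infer_instance

/-- `B` meets every dilate of the middle third -/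
def Hit {p : ℕ} (B : Finset (ZMod p)) : Prop := ∀ g : ZMod p, g ≠ 0 → ∃ b ∈ B, Mid (g * b)

variable {p k : ℕ} [hp : Fact p.Prime]

lemma vma_le (x : ZMod p) : 2 * x.valMinAbs.natAbs ≤ p := by
  have := ZMod.natAbs_valMinAbs_le x
  omega

lemma mid_neg (x : ZMod p) : Mid (-x) ↔ Mid x := by
  unfold Mid
  rw [ZMod.natAbs_valMinAbs_neg]

lemma dvd_of_eq {a b : ℤ} (h : (a : ZMod p) = (b : ZMod p)) : ∃ e : ℤ, a - b = p * e := by
  have := (ZMod.intCast_eq_intCast_iff_dvd_sub b a p).1 h.symm
  obtain ⟨e, he⟩ := this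
  exact ⟨e, he⟩

lemma mid_add (hk : p = 3 * k + 2) (x y : ZMod p) (hx : Mid x) (hy : Mid y) :
    ¬ Mid (x + y) := by
  intro hz
  unfold Mid at hx hy hz
  have h1 := vma_le x
  have h2 := vma_le y
  have h3 := vma_le (x + y)
  have hc : ((x.valMinAbs + y.valMinAbs : ℤ) : ZMod p) = (((x + y).valMinAbs : ℤ) : ZMod p) := by
    simp
  obtain ⟨e, he⟩ := dvd_of_eq hc
  set a := x.valMinAbs
  set b := y.valMinAbs
  set c := (x + y).valMinAbs
  have hpp : (p : ℤ) = 3 * k + 2 := by exact_mod_cast hk
  have he1 : e < 2 := by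
    by_contra hcon
    push Not at hcon
    have : (p : ℤ) * 2 ≤ p * e := by nlinarith
    omega
  have he2 : -2 < e := by
    by_contra hcon
    push Not at hcon
    have : (p : ℤ) * e ≤ p * (-2) := by nlinarith
    omega
  have he3 : e = -1 ∨ e = 0 ∨ e = 1 := by omega
  rcases he3 with rfl | rfl | rfl <;> omega

lemma mid_iff_I (hk : p = 3 * k + 2) (x : ZMod p) :
    Mid x ↔ x ∈ Pool.Agent.TH141.PC.I ((k + 1 : ℕ) : ZMod p) (k + 1) := by
  rw [Pool.Agent.TH141.PC.mem_I]
  unfold Mid
  have h1 := vma_le x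
  have h0 := ZMod.coe_valMinAbs x
  constructor
  · intro h
    rcases le_or_gt 0 x.valMinAbs with hs | hs
    · refine ⟨x.valMinAbs.natAbs - (k + 1), by omega, ?_⟩
      rw [← Nat.cast_add]
      have : k + 1 + (x.valMinAbs.natAbs - (k + 1)) = x.valMinAbs.natAbs := by omega
      rw [this]
      have h2 : ((x.valMinAbs.natAbs : ℤ) : ZMod p) = ((x.valMinAbs : ℤ) : ZMod p) := by
        rw [Int.natAbs_of_nonneg hs]
      rw [h0, Int.cast_natCast] at h2
      exact h2
    · refine ⟨p - x.valMinAbs.natAbs - (k + 1), by omega, ?_⟩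
      rw [← Nat.cast_add]
      have : k + 1 + (p - x.valMinAbs.natAbs - (k + 1)) = p - x.valMinAbs.natAbs := by omega
      rw [this, Nat.cast_sub (by omega)]
      have h2 : ((x.valMinAbs.natAbs : ℤ) : ZMod p) = ((-x.valMinAbs : ℤ) : ZMod p) := by
        congr 1
        omega
      rw [Int.cast_neg, h0, Int.cast_natCast] at h2
      rw [h2]
      simp
  · rintro ⟨i, hi, rfl⟩
    by_contra hcon
    rw [← Nat.cast_add] at hcon h1 h0
    set c := (((k + 1 + i : ℕ) : ZMod p)).valMinAbs
    have hc : (c : ZMod p) = (((k + 1 + i : ℕ) : ℤ) : ZMod p) := by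
      rw [h0]
      simp
    obtain ⟨e, he⟩ := dvd_of_eq hc
    have hpp : (p : ℤ) = 3 * k + 2 := by exact_mod_cast hk
    have he1 : e < 1 := by
      by_contra hcon
      push Not at hcon
      have : (p : ℤ) * 1 ≤ p * e := by nlinarith
      omega
    have he2 : -2 < e := by
      by_contra hcon
      push Not at hcon
      have : (p : ℤ) * e ≤ p * (-2) := by nlinarith
      omega
    have he3 : e = -1 ∨ e = 0 := by omega
    rcases he3 with rfl | rfl <;> omega

lemma ud (S : Finset (ZMod p)) : Pool.Agent.TH141.PC.UD S := by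
  intro b _ b' _ hne
  exact isUnit_iff_ne_zero.2 (sub_ne_zero.2 hne)

lemma sumfree_card (hk : p = 3 * k + 2) {S : Finset (ZMod p)} (hS : SumFree S) :
    S.card ≤ k + 1 := by
  rcases S.eq_empty_or_nonempty with rfl | hne
  · simp
  have h1 := ZMod.cauchy_davenport hp.out hne hne
  have h2 : Disjoint S (S + S) := by
    rw [Finset.disjoint_left]
    intro a ha hb
    obtain ⟨x, hx, y, hy, rfl⟩ := Finset.mem_add.1 hb
    exact hS x hx y hy ha
  have h3 : (S ∪ (S + S)).card ≤ p := by
    have := Finset.card_le_univ (S ∪ (S + S))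
    rwa [ZMod.card] at this
  rw [card_union_of_disjoint h2] at h3
  have h4 := hne.card_pos
  omega

/-- the structure of the sum-free sets of maximum size -/
lemma structure_sumfree (hk : p = 3 * k + 2) (hk1 : 1 ≤ k) {S : Finset (ZMod p)}
    (hS : SumFree S) (hc : S.card = k + 1) :
    ∃ g : ZMod p, g ≠ 0 ∧ ∀ x, x ∈ S ↔ Mid (g * x) := by
  have hne : S.Nonempty := by rw [← card_pos]; omega
  have h1 := ZMod.cauchy_davenport hp.out hne hne
  have h2 : Disjoint S (S + S) := by
    rw [Finset.disjoint_left]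
    intro a ha hb
    obtain ⟨x, hx, y, hy, rfl⟩ := Finset.mem_add.1 hb
    exact hS x hx y hy ha
  have h3 : (S ∪ (S + S)).card ≤ p := by
    have := Finset.card_le_univ (S ∪ (S + S))
    rwa [ZMod.card] at this
  rw [card_union_of_disjoint h2] at h3
  obtain ⟨g, ⟨x, l, hI⟩, -⟩ := Pool.Agent.TH141.PC.vosper (A := S) (B := S) (by omega) (by omega)
    (ud S) (by omega) (by omega)
  have hinj : Function.Injective (fun y : ZMod p => (g : ZMod p) * y) := by
    intro a b hab
    exact g.isUnit.mul_left_cancel hab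
  have hcI : (Pool.Agent.TH141.PC.I x l).card = k + 1 := by
    rw [← hI, card_image_of_injective _ hinj, hc]
  have hl : l ≤ p ∨ p < l := by omega
  have hlk : l = k + 1 := by
    rcases hl with hl | hl
    · rw [Pool.Agent.TH141.PC.card_I hl] at hcI
      exact hcI
    · exfalso
      have h5 : Pool.Agent.TH141.PC.I x p ⊆ Pool.Agent.TH141.PC.I x l := by
        intro y hy
        obtain ⟨i, hi, hy⟩ := Pool.Agent.TH141.PC.mem_I.1 hy
        exact Pool.Agent.TH141.PC.mem_I.2 ⟨i, by omega, hy⟩
      have h6 := card_le_card h5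
      rw [Pool.Agent.TH141.PC.card_I le_rfl] at h6
      omega
  subst hlk
  have hmem : ∀ y, y ∈ S ↔ (g : ZMod p) * y ∈ Pool.Agent.TH141.PC.I x (k + 1) := by
    intro y
    rw [← hI]
    constructor
    · intro hy
      exact mem_image_of_mem _ hy
    · intro hy
      obtain ⟨z, hz, hzy⟩ := mem_image.1 hy
      rw [← hinj hzy]
      exact hz
  -- determine x
  have hx : x = ((k + 1 : ℕ) : ZMod p) := by
    by_contra hxne
    -- v = x.val, differs from k+1
    have hnot : ∀ i j1 j2 : ℕ, i < k + 1 → j1 < k + 1 → j2 < k + 1 →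
        (x + (j1 : ZMod p)) + (x + (j2 : ZMod p)) ≠ x + (i : ZMod p) := by
      intro i j1 j2 hi hj1 hj2 heq
      have ha : ∀ j : ℕ, j < k + 1 → ∃ s ∈ S, (g : ZMod p) * s = x + (j : ZMod p) := by
        intro j hj
        have : x + (j : ZMod p) ∈ S.image (fun y => (g : ZMod p) * y) := by
          rw [hI]
          exact Pool.Agent.TH141.PC.mem_I.2 ⟨j, hj, rfl⟩
        obtain ⟨s, hs, hs2⟩ := mem_image.1 this
        exact ⟨s, hs, hs2⟩
      obtain ⟨s1, hs1, e1⟩ := ha j1 hj1
      obtain ⟨s2, hs2, e2⟩ := ha j2 hj2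
      obtain ⟨s3, hs3, e3⟩ := ha i hi
      rw [← e1, ← e2, ← e3, ← mul_add] at heq
      have := hinj heq
      exact hS s1 hs1 s2 hs2 (this ▸ hs3)
    have hv : x = ((x.val : ℕ) : ZMod p) := by simp
    have hvlt : x.val < p := ZMod.val_lt x
    have hvne : x.val ≠ k + 1 := by
      intro h
      apply hxne
      rw [hv, h]
    rcases lt_or_ge x.val (k + 1) with h | h
    · -- x = v ≤ k : i = v, j1 = j2 = 0
      apply hnot x.val 0 0 h (by omega) (by omega)
      nth_rewrite 3 [hv]
      simp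
    · -- v ≥ k+2: choose j with x + j1 + j2 = i + p
      have h5 : k + 2 ≤ x.val := by omega
      -- x + j1 + j2 ≡ 0, with j1 + j2 = p - v ≤ 2k
      have h6 : p - x.val ≤ 2 * k := by omega
      apply hnot 0 (min (p - x.val) k) (p - x.val - min (p - x.val) k) (by omega)
        (by omega) (by omega)
      have h7 : min (p - x.val) k + (p - x.val - min (p - x.val) k) = p - x.val := by omega
      have h8 : ((min (p - x.val) k : ℕ) : ZMod p) +
          ((p - x.val - min (p - x.val) k : ℕ) : ZMod p) = - x := by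
        rw [← Nat.cast_add, h7, Nat.cast_sub hvlt.le]
        simp
      calc (x + ((min (p - x.val) k : ℕ) : ZMod p)) +
          (x + ((p - x.val - min (p - x.val) k : ℕ) : ZMod p))
          = x + x + (((min (p - x.val) k : ℕ) : ZMod p) +
          ((p - x.val - min (p - x.val) k : ℕ) : ZMod p)) := by ring
        _ = x + ((0 : ℕ) : ZMod p) := by rw [h8]; simp
  refine ⟨g, g.ne_zero, ?_⟩
  intro y
  rw [hmem y, mid_iff_I hk, hx]

lemma sumfree_dilate (hk : p = 3 * k + 2) {g : ZMod p} (hg : g ≠ 0) :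
    SumFree (univ.filter (fun x : ZMod p => Mid (g * x))) ∧
      (univ.filter (fun x : ZMod p => Mid (g * x))).card = k + 1 := by
  constructor
  · intro x hx y hy hxy
    rw [mem_filter] at hx hy hxy
    rw [mul_add] at hxy
    exact mid_add hk _ _ hx.2 hy.2 hxy.2
  · have hinj : Function.Injective (fun y : ZMod p => g * y) := by
      intro a b hab
      exact mul_left_cancel₀ hg hab
    rw [← card_image_of_injective _ hinj]
    have : (univ.filter (fun x : ZMod p => Mid (g * x))).image (fun y => g * y) =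
        Pool.Agent.TH141.PC.I ((k + 1 : ℕ) : ZMod p) (k + 1) := by
      ext y
      rw [mem_image, ← mid_iff_I hk]
      constructor
      · rintro ⟨x, hx, rfl⟩
        exact (mem_filter.1 hx).2
      · intro hy
        refine ⟨g⁻¹ * y, ?_, ?_⟩
        · rw [mem_filter]
          refine ⟨mem_univ _, ?_⟩
          rw [← mul_assoc, mul_inv_cancel₀ hg, one_mul]
          exact hy
        · rw [← mul_assoc, mul_inv_cancel₀ hg, one_mul]
    rw [this, Pool.Agent.TH141.PC.card_I (by omega)]

/-- `A` contains a sum-free set of maximum size iff its complement misses some dilate -/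
lemma contains_iff (hk : p = 3 * k + 2) (hk1 : 1 ≤ k) (A : Finset (ZMod p)) :
    (∃ S ⊆ A, SumFree S ∧ S.card = k + 1) ↔ ¬ Hit Aᶜ := by
  constructor
  · rintro ⟨S, hSA, hS, hc⟩ hH
    obtain ⟨g, hg, hmem⟩ := structure_sumfree hk hk1 hS hc
    obtain ⟨b, hb, hb2⟩ := hH g hg
    rw [mem_compl] at hb
    exact hb (hSA ((hmem b).2 hb2))
  · intro h
    unfold Hit at h
    push Not at h
    obtain ⟨g, hg, hb⟩ := h
    refine ⟨univ.filter (fun x : ZMod p => Mid (g * x)), ?_, sumfree_dilate hk hg⟩
    intro x hx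
    by_contra hxA
    exact hb x (mem_compl.2 hxA) (mem_filter.1 hx).2

end Pool.Agent.R354.SF
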